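import Mathlib

/-!
Combinatorial and geometric `(21_4)` configurations.
-/

namespace H75C

open scoped LinearAlgebra.Projectivization

/-- The real projective plane (homogeneous coordinates).  A line of the plane is given by the
coefficients of its equation, a point of the same space. -/
abbrev Plane : Type := ℙ ℝ (Fin 3 → ℝ)

/-- `I p l` means that the point `p` lies on the line `l`: combinatorial `(21_4)` configuration. -/
structure IsConf (I : Fin 21 → Fin 21 → Prop) : Prop where
  line : ∀ l, Set.ncard {p | I p l} = 4
  point : ∀ p, Set.ncard {l | I p l} = 4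
  linear : ∀ p q, p ≠ q → Set.Subsingleton {l | I p l ∧ I q l}

/-- Isomorphism of incidence structures. -/
def Iso (I J : Fin 21 → Fin 21 → Prop) : Prop :=
  ∃ σ τ : Equiv.Perm (Fin 21), ∀ p l, I p l ↔ J (σ p) (τ l)

/-- `I` is the incidence structure of 21 distinct points and 21 distinct lines of the real
projective plane. -/
def Geometric (I : Fin 21 → Fin 21 → Prop) : Prop :=
  ∃ P L : Fin 21 → Plane, Function.Injective P ∧ Function.Injective L ∧
    ∀ p l, (P p).orthogonal (L l) ↔ I p l

end H75C
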