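import Pool.Agent.H75.Conf21.Poly
import Pool.Agent.H75.Conf21.Defs

/-!
Checking `(21_4)` configurations given by bit masks and coordinates in a number field.
-/

namespace H75C

open scoped LinearAlgebra.Projectivization

/-- number of `i < n` with `f i` -/
def cnt (f : ℕ → Bool) : ℕ → ℕ
  | 0 => 0
  | n + 1 => cnt f n + (f n).toNat

/-- `f i` for all `i < n` -/
def allB (f : ℕ → Bool) : ℕ → Bool
  | 0 => true
  | n + 1 => allB f n && f n

theorem allB_iff {f : ℕ → Bool} : ∀ {n : ℕ}, allB f n = true ↔ ∀ i, i < n → f i = true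
  | 0 => by simp [allB]
  | n + 1 => by
    rw [allB, Bool.and_eq_true, allB_iff]
    constructor
    · rintro ⟨h1, h2⟩ i hi
      rcases Nat.lt_succ_iff_lt_or_eq.1 hi with h | h
      · exact h1 i h
      · rw [h]; exact h2
    · intro h
      exact ⟨fun i hi => h i (Nat.lt_succ_of_lt hi), h n (Nat.lt_succ_self n)⟩

theorem cnt_eq (f : ℕ → Bool) : ∀ n : ℕ,
    cnt f n = (Finset.univ.filter (fun i : Fin n => f i = true)).card
  | 0 => by simp [cnt]
  | n + 1 => by
    rw [cnt, cnt_eq f n, Finset.card_filter, Finset.card_filter, Fin.sum_univ_castSucc]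
    congr 1
    cases h : f n <;> simp [h]

theorem ncard_eq_cnt (f : ℕ → Bool) (n : ℕ) : Set.ncard {i : Fin n | f i = true} = cnt f n := by
  rw [cnt_eq, Set.ncard_eq_toFinset_card']
  congr 1
  ext i; simp

/-- the incidence structure with line masks `M` -/
def incB (M : List ℕ) (p l : ℕ) : Bool := (M.getD l 0).testBit p

/-- the incidence structure with line masks `M` -/
def inc (M : List ℕ) (p l : Fin 21) : Prop := incB M p l = true

def confCheck (M : List ℕ) : Bool :=
  allB (fun l => cnt (fun p => incB M p l) 21 == 4) 21 &&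
  allB (fun p => cnt (fun l => incB M p l) 21 == 4) 21 &&
  allB (fun p => allB (fun q => decide (cnt (fun l => incB M p l && incB M q l) 21 ≤ 1)) p) 21

theorem isConf_of_check {M : List ℕ} (h : confCheck M = true) : IsConf (inc M) := by
  unfold confCheck at h
  rw [Bool.and_eq_true, Bool.and_eq_true] at h
  obtain ⟨⟨h1, h2⟩, h3⟩ := h
  have h3' : ∀ p q : Fin 21, q < p → Set.Subsingleton {l | inc M p l ∧ inc M q l} := by
    intro p q hqp
    have h4 := allB_iff.1 (allB_iff.1 h3 p p.2) q hqp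
    have h5 := of_decide_eq_true h4
    rw [← ncard_eq_cnt] at h5
    have h6 : {l : Fin 21 | inc M p l ∧ inc M q l} =
        {l : Fin 21 | (incB M p l && incB M q l) = true} := by
      ext l; simp [inc]
    rw [h6]
    intro a ha b hb
    exact (Set.ncard_le_one (Set.toFinite _)).1 h5 a ha b hb
  refine ⟨fun l => ?_, fun p => ?_, fun p q hpq => ?_⟩
  · have h4 := allB_iff.1 h1 l l.2
    rw [beq_iff_eq] at h4
    rw [← h4, ← ncard_eq_cnt]; rfl
  · have h4 := allB_iff.1 h2 p p.2
    rw [beq_iff_eq] at h4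
    rw [← h4, ← ncard_eq_cnt]; rfl
  · rcases lt_or_gt_of_ne hpq with h | h
    · have := h3' q p h
      intro a ha b hb
      exact this ⟨ha.2, ha.1⟩ ⟨hb.2, hb.1⟩
    · exact h3' p q h

/-- a configuration with coordinates in a number field -/
structure Cfg where
  f : List ℤ
  A : ℤ
  D : ℤ
  B : ℤ
  P : List (List (List ℤ))
  L : List (List (List ℤ))
  M : List ℕ

def crd (V : List (List (List ℤ))) (i j : ℕ) : List ℤ := (V.getD i []).getD j []

def pdot (f : List ℤ) (V W : List (List ℤ)) : List ℤ :=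
  padd (pmul f (V.getD 0 []) (W.getD 0 []))
    (padd (pmul f (V.getD 1 []) (W.getD 1 [])) (pmul f (V.getD 2 []) (W.getD 2 [])))

def geomCheck (c : Cfg) : Bool :=
  decide (0 < c.D) && decide (|c.A| + 1 ≤ c.B * c.D) && rootCert c.f c.A c.D &&
  allB (fun l => allB (fun j => decide ((crd c.L l j).length ≤ c.f.length)) 3) 21 &&
  allB (fun p => let V := c.P.getD p []; allB (fun l =>
    let v := pdot c.f V (c.L.getD l [])
    match incB c.M p l with
    | true => pzero v
    | false => pne c.A c.D c.B v) 21) 21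

/-- the vector with coordinates `V` at `α` -/
noncomputable def vec (α : ℝ) (V : List (List ℤ)) : Fin 3 → ℝ :=
  ![ev α (V.getD 0 []), ev α (V.getD 1 []), ev α (V.getD 2 [])]

theorem vec_dot {f : List ℤ} {α : ℝ} (hα : Root f α) {V W : List (List ℤ)}
    (hW : ∀ j < 3, (W.getD j []).length ≤ f.length) :
    dotProduct (vec α V) (vec α W) = ev α (pdot f V W) := by
  unfold pdot vec
  rw [ev_padd, ev_padd, ev_pmul hα _ (hW 0 (by norm_num)), ev_pmul hα _ (hW 1 (by norm_num)),
    ev_pmul hα _ (hW 2 (by norm_num)), dotProduct, Fin.sum_univ_three]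
  simp [add_assoc]

theorem geometric_of_vec {I : Fin 21 → Fin 21 → Prop} (hI : IsConf I) {P L : Fin 21 → Fin 3 → ℝ}
    (h : ∀ p l, dotProduct (P p) (L l) = 0 ↔ I p l) : Geometric I := by
  have hP0 : ∀ p, P p ≠ 0 := by
    intro p h0
    have h1 : ∀ l, I p l := fun l => (h p l).1 (by rw [h0, zero_dotProduct])
    have h2 := hI.point p
    have h3 : {l | I p l} = Set.univ := Set.eq_univ_of_forall h1
    rw [h3, Set.ncard_univ, Nat.card_eq_fintype_card, Fintype.card_fin] at h2
    omega
  have hL0 : ∀ l, L l ≠ 0 := by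
    intro l h0
    have h1 : ∀ p, I p l := fun p => (h p l).1 (by rw [h0, dotProduct_zero])
    have h2 := hI.line l
    have h3 : {p | I p l} = Set.univ := Set.eq_univ_of_forall h1
    rw [h3, Set.ncard_univ, Nat.card_eq_fintype_card, Fintype.card_fin] at h2
    omega
  have ho : ∀ p l, (Projectivization.mk ℝ (P p) (hP0 p)).orthogonal
      (Projectivization.mk ℝ (L l) (hL0 l)) ↔ I p l := by
    intro p l
    rw [Projectivization.orthogonal_mk]
    exact h p l
  refine ⟨fun p => Projectivization.mk ℝ (P p) (hP0 p), fun l => Projectivization.mk ℝ (L l) (hL0 l),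
    ?_, ?_, ho⟩
  · intro p q hpq
    by_contra hne
    have h1 : ∀ l, I p l ↔ I q l := by
      intro l
      rw [← ho p l, ← ho q l]
      have : Projectivization.mk ℝ (P p) (hP0 p) = Projectivization.mk ℝ (P q) (hP0 q) := hpq
      rw [this]
    have h2 := hI.linear p q hne
    have h3 : {l | I p l ∧ I q l} = {l | I p l} := by
      ext l
      simp only [Set.mem_ofPred_eq]
      rw [← h1 l]; tauto
    rw [h3] at h2
    have h4 := hI.point p
    have h5 : Set.ncard {l | I p l} ≤ 1 :=
      (Set.ncard_le_one (Set.toFinite _)).2 fun a ha b hb => h2 ha hb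
    omega
  · intro l m hlm
    have h1 : ∀ p, I p l ↔ I p m := by
      intro p
      rw [← ho p l, ← ho p m]
      have : Projectivization.mk ℝ (L l) (hL0 l) = Projectivization.mk ℝ (L m) (hL0 m) := hlm
      rw [this]
    have h2 : 1 < Set.ncard {p | I p l} := by rw [hI.line l]; norm_num
    obtain ⟨p, hp, q, hq, hpq⟩ := (Set.one_lt_ncard (Set.toFinite _)).1 h2
    exact hI.linear p q hpq ⟨hp, hq⟩ ⟨(h1 p).1 hp, (h1 q).1 hq⟩

theorem vec_of_check {c : Cfg} (hc : geomCheck c = true) :
    ∃ α : ℝ, Root c.f α ∧ (∀ v, pne c.A c.D c.B v = true → ev α v ≠ 0) ∧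
      ∀ p l : Fin 21, dotProduct (vec α (c.P.getD p [])) (vec α (c.L.getD l [])) = 0 ↔
        inc c.M p l := by
  unfold geomCheck at hc
  simp only [Bool.and_eq_true] at hc
  obtain ⟨⟨⟨⟨h1, h2⟩, h3⟩, h4⟩, h5⟩ := hc
  have hD : 0 < c.D := of_decide_eq_true h1
  have hD' : (0 : ℝ) < c.D := by exact_mod_cast hD
  have hB : |c.A| + 1 ≤ c.B * c.D := of_decide_eq_true h2
  have hB' : |(c.A : ℝ)| + 1 ≤ c.B * c.D := by exact_mod_cast hB
  obtain ⟨α, hα, hα2⟩ := exists_root hD h3
  have hA1 : |(c.A : ℝ) / c.D| ≤ c.B := by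
    rw [abs_div, abs_of_pos hD', div_le_iff₀ hD']; linarith
  have hA2 : |α| ≤ c.B := by
    have e : α = (c.A : ℝ) / c.D + (α - (c.A : ℝ) / c.D) := by ring
    rw [e]
    calc |(c.A : ℝ) / c.D + (α - (c.A : ℝ) / c.D)| ≤
          |(c.A : ℝ) / c.D| + |α - (c.A : ℝ) / c.D| := abs_add_le _ _
      _ ≤ |(c.A : ℝ)| / c.D + 1 / c.D := by
          rw [abs_div, abs_of_pos hD']; linarith
      _ = (|(c.A : ℝ)| + 1) / c.D := by ring
      _ ≤ c.B := by rw [div_le_iff₀ hD']; exact hB'
  refine ⟨α, hα, fun v hv => ev_ne_zero hD hα2 hA2 hA1 hv, fun p l => ?_⟩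
  have hlen : ∀ j < 3, ((c.L.getD l []).getD j []).length ≤ c.f.length := by
    intro j hj
    exact of_decide_eq_true (allB_iff.1 (allB_iff.1 h4 l l.2) j hj)
  rw [vec_dot hα hlen]
  have h6 := allB_iff.1 (allB_iff.1 h5 p p.2) l l.2
  unfold inc
  cases hi : incB c.M p l with
  | true =>
    rw [hi] at h6
    simp only [iff_true]
    exact ev_pzero α _ h6
  | false =>
    rw [hi] at h6
    simp only [Bool.false_eq_true, iff_false]
    exact ev_ne_zero hD hα2 hA2 hA1 h6

theorem geometric_of_check {c : Cfg} (h1 : confCheck c.M = true) (h2 : geomCheck c = true) :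
    Geometric (inc c.M) := by
  obtain ⟨α, _, _, h⟩ := vec_of_check h2
  exact geometric_of_vec (isConf_of_check h1) h

end H75C
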