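import Pool.Agent.H75.Conf21.CycVec
import Pool.Agent.H75.Conf21.Check

/-!
Checking polycyclic realisations over number fields.
-/

namespace H75C

/-- action on points -/
def shP (f lam : List ℤ) (v : List (List ℤ)) : List (List ℤ) :=
  [pmul f lam (v.getD 2 []), v.getD 0 [], v.getD 1 []]

/-- action on lines -/
def shL (f lam : List ℤ) (v : List (List ℤ)) : List (List ℤ) :=
  [v.getD 2 [], pmul f lam (v.getD 0 []), pmul f lam (v.getD 1 [])]

def cube (f v : List ℤ) : List ℤ := pmul f v (pmul f v v)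

/-- `x³ + lam y³ + lam² z³ - 3 lam x y z` -/
def nrmP (f lam : List ℤ) (v : List (List ℤ)) : List ℤ :=
  padd (cube f (v.getD 0 [])) (pmul f lam (padd (padd (cube f (v.getD 1 []))
    (pmul f lam (cube f (v.getD 2 []))))
    (psmul (-3) (pmul f (v.getD 0 []) (pmul f (v.getD 1 []) (v.getD 2 []))))))

/-- `lam² x³ + lam y³ + z³ - 3 lam x y z` -/
def nrmL (f lam : List ℤ) (v : List (List ℤ)) : List ℤ :=
  nrmP f lam [v.getD 2 [], v.getD 1 [], v.getD 0 []]

def shortV (f : List ℤ) (v : List (List ℤ)) : Bool :=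
  allB (fun j => decide ((v.getD j []).length ≤ f.length)) 3

def cycCheck (c : Cfg) (lam : List ℤ) : Bool :=
  decide (lam.length ≤ c.f.length) && pne c.A c.D c.B lam &&
  allB (fun i => let v := c.P.getD (3 * i) []; let w := c.P.getD (3 * i + 1) []
    w == shP c.f lam v && c.P.getD (3 * i + 2) [] == shP c.f lam w) 7 &&
  allB (fun i => let v := c.L.getD (3 * i) []; let w := c.L.getD (3 * i + 1) []
    w == shL c.f lam v && c.L.getD (3 * i + 2) [] == shL c.f lam w) 7 &&
  allB (fun p => let v := c.P.getD p []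
    shortV c.f v && pne c.A c.D c.B (nrmP c.f lam v)) 21 &&
  allB (fun p => let v := c.L.getD p []
    shortV c.f v && pne c.A c.D c.B (nrmL c.f lam v)) 21

theorem vec_shP {f lam : List ℤ} {α : ℝ} (hα : Root f α) {v : List (List ℤ)}
    (hv : shortV f v = true) : vec α (shP f lam v) = Tv (ev α lam) (vec α v) := by
  have h2 := of_decide_eq_true (allB_iff.1 hv 2 (by norm_num))
  funext j
  fin_cases j
  · exact ev_pmul hα lam h2
  · rfl
  · rfl

theorem vec_shL {f lam : List ℤ} {α : ℝ} (hα : Root f α) {v : List (List ℤ)}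
    (hv : shortV f v = true) : vec α (shL f lam v) = Tl (ev α lam) (vec α v) := by
  have h0 := of_decide_eq_true (allB_iff.1 hv 0 (by norm_num))
  have h1 := of_decide_eq_true (allB_iff.1 hv 1 (by norm_num))
  funext j
  fin_cases j
  · rfl
  · exact ev_pmul hα lam h0
  · exact ev_pmul hα lam h1

theorem ev_cube {f : List ℤ} {α : ℝ} (hα : Root f α) {v : List ℤ} (hv : v.length ≤ f.length) :
    ev α (cube f v) = ev α v ^ 3 := by
  unfold cube
  rw [ev_pmul hα v (length_pmul v hv), ev_pmul hα v hv]; ring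

theorem ev_nrmP {f lam : List ℤ} {α : ℝ} (hα : Root f α) {v : List (List ℤ)}
    (hv : ∀ j < 3, (v.getD j []).length ≤ f.length) :
    ev α (nrmP f lam v) = ev α (v.getD 0 []) ^ 3 + ev α lam * (ev α (v.getD 1 []) ^ 3 +
      ev α lam * ev α (v.getD 2 []) ^ 3 -
      3 * (ev α (v.getD 0 []) * ev α (v.getD 1 []) * ev α (v.getD 2 []))) := by
  have h0 := hv 0 (by norm_num)
  have h1 := hv 1 (by norm_num)
  have h2 := hv 2 (by norm_num)
  have c1 : (cube f (v.getD 1 [])).length ≤ f.length := length_pmul _ (length_pmul _ h1)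
  have c2 : (cube f (v.getD 2 [])).length ≤ f.length := length_pmul _ (length_pmul _ h2)
  have c3 : (pmul f lam (cube f (v.getD 2 []))).length ≤ f.length := length_pmul _ c2
  have c4 : (pmul f (v.getD 1 []) (v.getD 2 [])).length ≤ f.length := length_pmul _ h2
  have c5 : (pmul f (v.getD 0 []) (pmul f (v.getD 1 []) (v.getD 2 []))).length ≤ f.length :=
    length_pmul _ c4
  have c6 : (padd (padd (cube f (v.getD 1 [])) (pmul f lam (cube f (v.getD 2 []))))
    (psmul (-3) (pmul f (v.getD 0 []) (pmul f (v.getD 1 []) (v.getD 2 []))))).length ≤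
      f.length := by
    rw [length_padd, length_padd, length_psmul]; omega
  unfold nrmP
  rw [ev_padd, ev_pmul hα lam c6, ev_padd, ev_padd, ev_psmul, ev_pmul hα lam c2, ev_cube hα h0,
    ev_cube hα h1, ev_cube hα h2, ev_pmul hα _ c4, ev_pmul hα _ h2]
  push_cast; ring

theorem exists_cbrt {lam : ℝ} (h : lam ≠ 0) : ∃ μ : ℝ, μ ≠ 0 ∧ μ ^ 3 = lam := by
  have hpos : ∀ t : ℝ, 0 < t → ∃ μ : ℝ, μ ≠ 0 ∧ μ ^ 3 = t := by
    intro t ht
    refine ⟨t ^ ((1 : ℝ) / 3), (Real.rpow_pos_of_pos ht _).ne', ?_⟩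
    rw [← Real.rpow_natCast, ← Real.rpow_mul ht.le]
    norm_num
  rcases lt_or_gt_of_ne h with h1 | h1
  · obtain ⟨μ, h2, h3⟩ := hpos (-lam) (by linarith)
    exact ⟨-μ, neg_ne_zero.2 h2, by rw [neg_pow, h3]; norm_num⟩
  · exact hpos lam h1

theorem polycyclic_of_check {c : Cfg} {lam : List ℤ} (h1 : confCheck c.M = true)
    (h2 : geomCheck c = true) (h3 : cycCheck c lam = true) : Polycyclic (inc c.M) := by
  obtain ⟨α, hα, hne, h⟩ := vec_of_check h2
  unfold cycCheck at h3
  simp only [Bool.and_eq_true] at h3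
  obtain ⟨⟨⟨⟨⟨ha, hb⟩, hc⟩, hd⟩, he⟩, hf⟩ := h3
  have hlam : ev α lam ≠ 0 := hne _ hb
  obtain ⟨μ, hμ, hμ3⟩ := exists_cbrt hlam
  have hPs : ∀ p, p < 21 → shortV c.f (c.P.getD p []) = true := by
    intro p hp
    have := allB_iff.1 he p hp
    simp only [Bool.and_eq_true] at this
    exact this.1
  have hLs : ∀ p, p < 21 → shortV c.f (c.L.getD p []) = true := by
    intro p hp
    have := allB_iff.1 hf p hp
    simp only [Bool.and_eq_true] at this
    exact this.1
  have hlenP : ∀ p, p < 21 → ∀ j < 3, ((c.P.getD p []).getD j []).length ≤ c.f.length :=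
    fun p hp j hj => of_decide_eq_true (allB_iff.1 (hPs p hp) j hj)
  have hlenL : ∀ p, p < 21 → ∀ j < 3, ((c.L.getD p []).getD j []).length ≤ c.f.length :=
    fun p hp j hj => of_decide_eq_true (allB_iff.1 (hLs p hp) j hj)
  refine polycyclic_of_vec (isConf_of_check h1) h hμ ?_ ?_ ?_ ?_
  · intro p h0
    have h4 := allB_iff.1 he p p.2
    simp only [Bool.and_eq_true] at h4
    apply hne _ h4.2
    rw [ev_nrmP hα (hlenP p p.2)]
    have h5 : ev α ((c.P.getD p []).getD 0 []) + μ * ev α ((c.P.getD p []).getD 1 []) +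
        μ ^ 2 * ev α ((c.P.getD p []).getD 2 []) = 0 := h0
    set x := ev α ((c.P.getD p []).getD 0 [])
    set y := ev α ((c.P.getD p []).getD 1 [])
    set z := ev α ((c.P.getD p []).getD 2 [])
    rw [← hμ3]
    linear_combination (x ^ 2 + μ ^ 2 * y ^ 2 + μ ^ 4 * z ^ 2 - μ * x * y - μ ^ 3 * y * z -
      μ ^ 2 * x * z) * h5
  · intro l h0
    have h4 := allB_iff.1 hf l l.2
    simp only [Bool.and_eq_true] at h4
    apply hne _ h4.2
    unfold nrmL
    have hl := hlenL l l.2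
    rw [ev_nrmP hα (by
      intro j hj
      have : j = 0 ∨ j = 1 ∨ j = 2 := by omega
      rcases this with rfl | rfl | rfl
      · simpa using hl 2 (by norm_num)
      · simpa using hl 1 (by norm_num)
      · simpa using hl 0 (by norm_num))]
    have h5 := congrArg Complex.re h0
    have h6 := congrArg Complex.im h0
    simp only [aL, vec, Complex.zero_re, Complex.zero_im, Matrix.cons_val_zero,
      Matrix.cons_val_one, Matrix.cons_val] at h5 h6
    simp only [List.getD_cons_zero, List.getD_cons_succ]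
    set x := ev α ((c.L.getD l []).getD 0 [])
    set y := ev α ((c.L.getD l []).getD 1 [])
    set z := ev α ((c.L.getD l []).getD 2 [])
    have h7 : μ * y = z := by
      have h8 : Real.sqrt 3 / 2 ≠ 0 := by positivity
      have := (mul_eq_zero.1 h6).resolve_left h8
      linarith
    have h9 : μ ^ 2 * x = z := by linarith
    rw [← hμ3]
    have e1 : z ^ 3 + μ ^ 3 * (y ^ 3 + μ ^ 3 * x ^ 3 - 3 * (z * y * x)) =
        z ^ 3 + (μ * y) ^ 3 + (μ ^ 2 * x) ^ 3 - 3 * z * (μ * y) * (μ ^ 2 * x) := by ring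
    rw [e1, h7, h9]; ring
  · intro p
    have hi : (p : ℕ) / 3 < 7 := by omega
    have h4 := allB_iff.1 hc (p / 3) hi
    simp only [Bool.and_eq_true, beq_iff_eq] at h4
    have hp0 : 3 * ((p : ℕ) / 3) < 21 := by omega
    have hp1 : 3 * ((p : ℕ) / 3) + 1 < 21 := by omega
    have hp2 : 3 * ((p : ℕ) / 3) + 2 < 21 := by omega
    have e1 : vec α (c.P.getD (3 * (p / 3) + 1) []) =
        Tv (μ ^ 3) (vec α (c.P.getD (3 * (p / 3)) [])) := by
      rw [h4.1, vec_shP hα (hPs _ hp0), hμ3]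
    have e2 : vec α (c.P.getD (3 * (p / 3) + 2) []) =
        Tv (μ ^ 3) (vec α (c.P.getD (3 * (p / 3) + 1) [])) := by
      rw [h4.2, vec_shP hα (hPs _ hp1), hμ3]
    have hk : (p : ℕ) % 3 = 0 ∨ (p : ℕ) % 3 = 1 ∨ (p : ℕ) % 3 = 2 := by omega
    rcases hk with hk | hk | hk
    · refine ⟨1, one_ne_zero, ?_⟩
      have a1 : ((shf p : Fin 21) : ℕ) = 3 * (p / 3) + 1 := by simp only [shf]; omega
      have a2 : (p : ℕ) = 3 * (p / 3) := by omega
      rw [one_smul, a1, e1, ← a2]
    · refine ⟨1, one_ne_zero, ?_⟩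
      have a1 : ((shf p : Fin 21) : ℕ) = 3 * (p / 3) + 2 := by simp only [shf]; omega
      have a2 : (p : ℕ) = 3 * (p / 3) + 1 := by omega
      rw [one_smul, a1, e2, ← a2]
    · refine ⟨μ ^ 3, by rw [hμ3]; exact hlam, ?_⟩
      have a1 : ((shf p : Fin 21) : ℕ) = 3 * (p / 3) := by simp only [shf]; omega
      have a2 : (p : ℕ) = 3 * (p / 3) + 2 := by omega
      have a3 : vec α (c.P.getD p []) =
          Tv (μ ^ 3) (Tv (μ ^ 3) (vec α (c.P.getD (3 * (p / 3)) []))) := by
        rw [← e1, ← e2, ← a2]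
      rw [a1, a3]
      funext j
      fin_cases j <;> simp [Tv]
  · intro p
    have hi : (p : ℕ) / 3 < 7 := by omega
    have h4 := allB_iff.1 hd (p / 3) hi
    simp only [Bool.and_eq_true, beq_iff_eq] at h4
    have hp0 : 3 * ((p : ℕ) / 3) < 21 := by omega
    have hp1 : 3 * ((p : ℕ) / 3) + 1 < 21 := by omega
    have hp2 : 3 * ((p : ℕ) / 3) + 2 < 21 := by omega
    have e1 : vec α (c.L.getD (3 * (p / 3) + 1) []) =
        Tl (μ ^ 3) (vec α (c.L.getD (3 * (p / 3)) [])) := by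
      rw [h4.1, vec_shL hα (hLs _ hp0), hμ3]
    have e2 : vec α (c.L.getD (3 * (p / 3) + 2) []) =
        Tl (μ ^ 3) (vec α (c.L.getD (3 * (p / 3) + 1) [])) := by
      rw [h4.2, vec_shL hα (hLs _ hp1), hμ3]
    have hk : (p : ℕ) % 3 = 0 ∨ (p : ℕ) % 3 = 1 ∨ (p : ℕ) % 3 = 2 := by omega
    rcases hk with hk | hk | hk
    · refine ⟨1, one_ne_zero, ?_⟩
      have a1 : ((shf p : Fin 21) : ℕ) = 3 * (p / 3) + 1 := by simp only [shf]; omega
      have a2 : (p : ℕ) = 3 * (p / 3) := by omega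
      rw [one_smul, a1, e1, ← a2]
    · refine ⟨1, one_ne_zero, ?_⟩
      have a1 : ((shf p : Fin 21) : ℕ) = 3 * (p / 3) + 2 := by simp only [shf]; omega
      have a2 : (p : ℕ) = 3 * (p / 3) + 1 := by omega
      rw [one_smul, a1, e2, ← a2]
    · refine ⟨μ ^ 3 * μ ^ 3, by rw [hμ3]; exact mul_ne_zero hlam hlam, ?_⟩
      have a1 : ((shf p : Fin 21) : ℕ) = 3 * (p / 3) := by simp only [shf]; omega
      have a2 : (p : ℕ) = 3 * (p / 3) + 2 := by omega
      have a3 : vec α (c.L.getD p []) =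
          Tl (μ ^ 3) (Tl (μ ^ 3) (vec α (c.L.getD (3 * (p / 3)) []))) := by
        rw [← e1, ← e2, ← a2]
      rw [a1, a3]
      funext j
      fin_cases j <;> simp [Tl] <;> ring

end H75C
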