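import Pool.Agent.H75.Conf21.Defs

/-!
Polycyclic realisations in the Euclidean plane `ℂ`.
-/

namespace H75C

open scoped ComplexConjugate

/-- A straight line of the Euclidean plane `ℂ`. -/
def IsLine (ℓ : Set ℂ) : Prop :=
  ∃ (a : ℂ) (b : ℝ), a ≠ 0 ∧ ℓ = {z | (conj a * z).re = b}

/-- The rotation by `2π/m` about `c`. -/
noncomputable def rot (m : ℕ) (c z : ℂ) : ℂ :=
  c + Complex.exp (2 * Real.pi * Complex.I / m) * (z - c)

/-- The (forward) orbit of `x` under `f`. -/
def orb {X : Type*} (f : X → X) (x : X) : Set X := {y | ∃ k : ℕ, y = f^[k] x}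

/-- `I` has a polycyclic realisation: distinct points `P p` and distinct lines `L l` of the
Euclidean plane with incidence structure `I`, and a rotation by `2π/m`, `m ≥ 2`, which maps the set
of points and the set of lines onto themselves, all orbits having exactly `m` elements. -/
def Polycyclic (I : Fin 21 → Fin 21 → Prop) : Prop :=
  ∃ (P : Fin 21 → ℂ) (L : Fin 21 → Set ℂ), Function.Injective P ∧ Function.Injective L ∧
    (∀ l, IsLine (L l)) ∧ (∀ p l, P p ∈ L l ↔ I p l) ∧
    ∃ m : ℕ, 2 ≤ m ∧ ∃ c : ℂ,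
      rot m c '' Set.range P = Set.range P ∧
      (fun ℓ : Set ℂ => rot m c '' ℓ) '' Set.range L = Set.range L ∧
      (∀ p, (orb (rot m c) (P p)).ncard = m) ∧
      (∀ l, (orb (fun ℓ : Set ℂ => rot m c '' ℓ) (L l)).ncard = m)

end H75C
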