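import Pool.Agent.H75.Conf21.CycDefs

/-!
Polycyclic realisations from vectors permuted by `T (x, y, z) = (lam z, x, y)`.
-/

namespace H75C

open scoped ComplexConjugate

noncomputable def om : ℂ := ⟨-1 / 2, Real.sqrt 3 / 2⟩

theorem sq3 : Real.sqrt 3 ^ 2 = 3 := Real.sq_sqrt (by norm_num)

theorem exp_om : Complex.exp (2 * Real.pi * Complex.I / (3 : ℕ)) = om := by
  have e : (2 * Real.pi * Complex.I / (3 : ℕ) : ℂ) =
      ((2 * Real.pi / 3 : ℝ) : ℂ) * Complex.I := by
    push_cast; ring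
  rw [e, Complex.exp_mul_I, ← Complex.ofReal_cos, ← Complex.ofReal_sin]
  have h : (2 * Real.pi / 3 : ℝ) = Real.pi - Real.pi / 3 := by ring
  rw [h, Real.cos_pi_sub, Real.sin_pi_sub, Real.cos_pi_div_three, Real.sin_pi_div_three]
  apply Complex.ext
  · simp [om]; norm_num
  · simp [om]

theorem rot_three (z : ℂ) : rot 3 0 z = om * z := by
  unfold rot
  rw [exp_om]; ring

def Tv (lam : ℝ) (v : Fin 3 → ℝ) : Fin 3 → ℝ := ![lam * v 2, v 0, v 1]

def Tl (lam : ℝ) (l : Fin 3 → ℝ) : Fin 3 → ℝ := ![l 2, lam * l 0, lam * l 1]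

noncomputable def den (μ : ℝ) (v : Fin 3 → ℝ) : ℝ := v 0 + μ * v 1 + μ ^ 2 * v 2

noncomputable def wv (μ : ℝ) (v : Fin 3 → ℝ) : ℂ :=
  ⟨(v 0 - (μ * v 1 + μ ^ 2 * v 2) / 2) / den μ v,
    (Real.sqrt 3 / 2 * (μ * v 1 - μ ^ 2 * v 2)) / den μ v⟩

noncomputable def aL (μ : ℝ) (l : Fin 3 → ℝ) : ℂ :=
  ⟨μ ^ 2 * l 0 - (μ * l 1 + l 2) / 2, Real.sqrt 3 / 2 * (μ * l 1 - l 2)⟩

noncomputable def bL (μ : ℝ) (l : Fin 3 → ℝ) : ℝ := -(μ ^ 2 * l 0 + μ * l 1 + l 2) / 2

noncomputable def lnS (μ : ℝ) (l : Fin 3 → ℝ) : Set ℂ := {z | (conj (aL μ l) * z).re = bL μ l}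

theorem mem_lnS {μ : ℝ} {l : Fin 3 → ℝ} {z : ℂ} :
    z ∈ lnS μ l ↔ (aL μ l).re * z.re + (aL μ l).im * z.im = bL μ l := by
  unfold lnS
  rw [Set.mem_ofPred_eq, Complex.mul_re, Complex.conj_re, Complex.conj_im]
  constructor <;> intro h <;> linarith

theorem wv_mem {μ : ℝ} (hμ : μ ≠ 0) {v l : Fin 3 → ℝ} (hd : den μ v ≠ 0) :
    wv μ v ∈ lnS μ l ↔ dotProduct v l = 0 := by
  rw [mem_lnS, dotProduct, Fin.sum_univ_three]
  have key : (aL μ l).re * (wv μ v).re + (aL μ l).im * (wv μ v).im - bL μ l =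
      (3 / 2 * μ ^ 2 * (v 0 * l 0 + v 1 * l 1 + v 2 * l 2)) / den μ v := by
    rw [eq_div_iff hd]
    have e1 : (wv μ v).re * den μ v = v 0 - (μ * v 1 + μ ^ 2 * v 2) / 2 := by
      simp only [wv]; field_simp
    have e2 : (wv μ v).im * den μ v = Real.sqrt 3 / 2 * (μ * v 1 - μ ^ 2 * v 2) := by
      simp only [wv]; field_simp
    have e3 : ((aL μ l).re * (wv μ v).re + (aL μ l).im * (wv μ v).im - bL μ l) * den μ v =
        (aL μ l).re * ((wv μ v).re * den μ v) + (aL μ l).im * ((wv μ v).im * den μ v) -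
          bL μ l * den μ v := by ring
    rw [e3, e1, e2]
    simp only [aL, bL, den]
    linear_combination (1 / 4 * (μ * l 1 - l 2) * (μ * v 1 - μ ^ 2 * v 2)) * sq3
  constructor
  · intro h
    rw [h, sub_self] at key
    have h1 := key.symm
    rw [div_eq_zero_iff] at h1
    rcases h1 with h1 | h1
    · have h2 : (3 / 2 * μ ^ 2 : ℝ) ≠ 0 := by positivity
      exact (mul_eq_zero.1 h1).resolve_left h2
    · exact absurd h1 hd
  · intro h
    rw [h, mul_zero, zero_div] at key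
    linarith

theorem wv_Tv {μ : ℝ} (hμ : μ ≠ 0) {v : Fin 3 → ℝ} (hd : den μ v ≠ 0) :
    wv μ (Tv (μ ^ 3) v) = om * wv μ v := by
  have hden : den μ (Tv (μ ^ 3) v) = μ * den μ v := by
    simp [den, Tv]; ring
  have hd' : μ * den μ v ≠ 0 := mul_ne_zero hμ hd
  apply Complex.ext
  · rw [Complex.mul_re]
    simp only [wv, om]
    rw [hden]
    simp only [Tv, Matrix.cons_val_zero, Matrix.cons_val_one, Matrix.cons_val]
    field_simp
    linear_combination (μ * (v 1 - v 2 * μ)) * sq3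
  · rw [Complex.mul_im]
    simp only [wv, om]
    rw [hden]
    simp only [Tv, Matrix.cons_val_zero, Matrix.cons_val_one, Matrix.cons_val]
    field_simp
    ring

theorem om_ne : om ≠ 0 := by
  intro h
  have := congrArg Complex.re h
  simp only [om, Complex.zero_re] at this
  norm_num at this

theorem lnS_Tl {μ : ℝ} (hμ : μ ≠ 0) (l : Fin 3 → ℝ) :
    lnS μ (Tl (μ ^ 3) l) = (fun z => om * z) '' lnS μ l := by
  have key : ∀ z : ℂ, om * z ∈ lnS μ (Tl (μ ^ 3) l) ↔ z ∈ lnS μ l := by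
    intro z
    rw [mem_lnS, mem_lnS, Complex.mul_re, Complex.mul_im]
    have e1 : (aL μ (Tl (μ ^ 3) l)).re * (om.re * z.re - om.im * z.im) +
        (aL μ (Tl (μ ^ 3) l)).im * (om.re * z.im + om.im * z.re) - bL μ (Tl (μ ^ 3) l) =
        μ ^ 2 * ((aL μ l).re * z.re + (aL μ l).im * z.im - bL μ l) := by
      simp only [aL, bL, om, Tl, Matrix.cons_val_zero, Matrix.cons_val_one, Matrix.cons_val]
      linear_combination (μ ^ 2 / 4 * (μ ^ 2 * l 0 - μ * l 1) * z.re) * sq3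
    have hμ2 : μ ^ 2 ≠ 0 := pow_ne_zero 2 hμ
    constructor
    · intro h
      rw [h, sub_self] at e1
      have := (mul_eq_zero.1 e1.symm).resolve_left hμ2
      linarith
    · intro h
      rw [h, sub_self, mul_zero] at e1
      linarith
  ext z
  constructor
  · intro h
    refine ⟨om⁻¹ * z, ?_, ?_⟩
    · rw [← key, mul_inv_cancel_left₀ om_ne]; exact h
    · exact mul_inv_cancel_left₀ om_ne z
  · rintro ⟨w, hw, rfl⟩
    exact (key w).2 hw

theorem wv_smul {μ t : ℝ} (ht : t ≠ 0) (v : Fin 3 → ℝ) : wv μ (t • v) = wv μ v := by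
  have hden : den μ (t • v) = t * den μ v := by
    simp only [den, Pi.smul_apply, smul_eq_mul]; ring
  apply Complex.ext
  · simp only [wv]
    rw [hden]
    simp only [Pi.smul_apply, smul_eq_mul]
    rw [← mul_div_mul_left (v 0 - (μ * v 1 + μ ^ 2 * v 2) / 2) _ ht]
    congr 1; ring
  · simp only [wv]
    rw [hden]
    simp only [Pi.smul_apply, smul_eq_mul]
    rw [← mul_div_mul_left (Real.sqrt 3 / 2 * (μ * v 1 - μ ^ 2 * v 2)) _ ht]
    congr 1; ring

theorem lnS_smul {μ t : ℝ} (ht : t ≠ 0) (l : Fin 3 → ℝ) : lnS μ (t • l) = lnS μ l := by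
  ext z
  rw [mem_lnS, mem_lnS]
  have e : (aL μ (t • l)).re * z.re + (aL μ (t • l)).im * z.im - bL μ (t • l) =
      t * ((aL μ l).re * z.re + (aL μ l).im * z.im - bL μ l) := by
    simp only [aL, bL, Pi.smul_apply, smul_eq_mul]; ring
  constructor
  · intro h
    rw [h, sub_self] at e
    have := (mul_eq_zero.1 e.symm).resolve_left ht
    linarith
  · intro h
    rw [h, sub_self, mul_zero] at e
    linarith

/-- the shift of the blocks of three -/
def shf (p : Fin 21) : Fin 21 := ⟨3 * (p / 3) + (p % 3 + 1) % 3, by omega⟩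

theorem shf3 : ∀ p, shf (shf (shf p)) = p := by decide
theorem shf1_ne : ∀ p, shf p ≠ p := by decide
theorem shf2_ne : ∀ p, shf (shf p) ≠ p := by decide
theorem shf12_ne : ∀ p, shf (shf p) ≠ shf p := by decide

theorem orb_ncard {X : Type*} {F : Fin 21 → X} (hF : Function.Injective F) {g : X → X}
    (h : ∀ p, F (shf p) = g (F p)) (p : Fin 21) : (orb g (F p)).ncard = 3 := by
  have hk : ∀ k : ℕ, F (shf^[k] p) = g^[k] (F p) := by
    intro k
    induction k with
    | zero => rfl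
    | succ k ih => rw [Function.iterate_succ_apply', Function.iterate_succ_apply', h, ih]
  have himg : orb g (F p) = F '' (({p, shf p, shf (shf p)} : Finset (Fin 21)) : Set (Fin 21)) := by
    ext z
    constructor
    · rintro ⟨k, rfl⟩
      refine ⟨shf^[k] p, ?_, hk k⟩
      rw [Finset.mem_coe]
      induction k with
      | zero => simp
      | succ k ih =>
        rw [Function.iterate_succ_apply']
        simp only [Finset.mem_insert, Finset.mem_singleton] at ih ⊢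
        rcases ih with h1 | h1 | h1
        · rw [h1]; simp
        · rw [h1]; simp
        · rw [h1, shf3]; simp
    · rintro ⟨q, hq, rfl⟩
      rw [Finset.mem_coe] at hq
      simp only [Finset.mem_insert, Finset.mem_singleton] at hq
      rcases hq with h1 | h1 | h1
      · exact ⟨0, by rw [h1]; rfl⟩
      · exact ⟨1, by rw [h1, h]; rfl⟩
      · exact ⟨2, by rw [h1, h, h]; rfl⟩
  rw [himg, Set.ncard_image_of_injective _ hF, Set.ncard_coe_finset]
  rw [Finset.card_insert_of_notMem, Finset.card_insert_of_notMem, Finset.card_singleton]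
  · rw [Finset.mem_singleton]; exact fun h => shf12_ne p h.symm
  · rw [Finset.mem_insert, Finset.mem_singleton, not_or]
    exact ⟨fun h => shf1_ne p h.symm, fun h => shf2_ne p h.symm⟩

/-- the basic construction -/
theorem polycyclic_of_vec {I : Fin 21 → Fin 21 → Prop} (hI : IsConf I)
    {P L : Fin 21 → Fin 3 → ℝ} (h : ∀ p l, dotProduct (P p) (L l) = 0 ↔ I p l) {μ : ℝ}
    (hμ : μ ≠ 0) (hd : ∀ p, den μ (P p) ≠ 0) (ha : ∀ l, aL μ (L l) ≠ 0)
    (hP : ∀ p, ∃ t : ℝ, t ≠ 0 ∧ t • P (shf p) = Tv (μ ^ 3) (P p))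
    (hL : ∀ l, ∃ t : ℝ, t ≠ 0 ∧ t • L (shf l) = Tl (μ ^ 3) (L l)) : Polycyclic I := by
  have hinc : ∀ p l, wv μ (P p) ∈ lnS μ (L l) ↔ I p l := by
    intro p l
    rw [wv_mem hμ (hd p)]; exact h p l
  have hPs : ∀ p, wv μ (P (shf p)) = rot 3 0 (wv μ (P p)) := by
    intro p
    obtain ⟨t, ht, e⟩ := hP p
    rw [rot_three, ← wv_Tv hμ (hd p), ← e, wv_smul ht]
  have hLs : ∀ l, lnS μ (L (shf l)) = rot 3 0 '' (lnS μ (L l)) := by
    intro l
    obtain ⟨t, ht, e⟩ := hL l
    have : rot 3 0 = fun z => om * z := funext rot_three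
    rw [this, ← lnS_Tl hμ, ← e, lnS_smul ht]
  have hPi : Function.Injective (fun p => wv μ (P p)) := by
    intro p q hpq
    by_contra hne
    have h1 : ∀ l, I p l ↔ I q l := by
      intro l
      rw [← hinc p l, ← hinc q l]
      have : wv μ (P p) = wv μ (P q) := hpq
      rw [this]
    have h2 := hI.linear p q hne
    have h3 : {l | I p l ∧ I q l} = {l | I p l} := by
      ext l
      simp only [Set.mem_ofPred_eq]
      rw [← h1 l]; tauto
    rw [h3] at h2
    have h4 := hI.point p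
    have h5 : Set.ncard {l | I p l} ≤ 1 :=
      (Set.ncard_le_one (Set.toFinite _)).2 fun a ha b hb => h2 ha hb
    omega
  have hLi : Function.Injective (fun l => lnS μ (L l)) := by
    intro l m hlm
    have h1 : ∀ p, I p l ↔ I p m := by
      intro p
      rw [← hinc p l, ← hinc p m]
      have : lnS μ (L l) = lnS μ (L m) := hlm
      rw [this]
    have h2 : 1 < Set.ncard {p | I p l} := by rw [hI.line l]; norm_num
    obtain ⟨p, hp, q, hq, hpq⟩ := (Set.one_lt_ncard (Set.toFinite _)).1 h2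
    exact hI.linear p q hpq ⟨hp, hq⟩ ⟨(h1 p).1 hp, (h1 q).1 hq⟩
  have hsurj : ∀ p, ∃ q, shf q = p := fun p => ⟨shf (shf p), shf3 p⟩
  refine ⟨fun p => wv μ (P p), fun l => lnS μ (L l), hPi, hLi,
    fun l => ⟨aL μ (L l), bL μ (L l), ha l, rfl⟩, hinc, 3, by norm_num, 0, ?_, ?_, ?_, ?_⟩
  · ext z
    constructor
    · rintro ⟨_, ⟨p, rfl⟩, rfl⟩
      exact ⟨shf p, hPs p⟩
    · rintro ⟨p, rfl⟩
      obtain ⟨q, rfl⟩ := hsurj p
      exact ⟨_, ⟨q, rfl⟩, (hPs q).symm⟩
  · ext z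
    constructor
    · rintro ⟨_, ⟨p, rfl⟩, rfl⟩
      exact ⟨shf p, hLs p⟩
    · rintro ⟨p, rfl⟩
      obtain ⟨q, rfl⟩ := hsurj p
      exact ⟨_, ⟨q, rfl⟩, (hLs q).symm⟩
  · intro p
    exact orb_ncard (F := fun p => wv μ (P p)) hPi hPs p
  · intro l
    exact orb_ncard (F := fun l => lnS μ (L l)) hLi hLs l

end H75C
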