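import Pool.Agent.H75.Conf21.Check

/-!
An isomorphism invariant of incidence structures, and its computation.
-/

namespace H75C

/-- collinear or equal -/
noncomputable def adj (I : Fin 21 → Fin 21 → Prop) (p q : Fin 21) : Bool :=
  @decide (∃ l, I p l ∧ I q l) (Classical.propDecidable _)

theorem adj_iff {I : Fin 21 → Fin 21 → Prop} {p q : Fin 21} :
    adj I p q = true ↔ ∃ l, I p l ∧ I q l :=
  @decide_eq_true_iff _ (Classical.propDecidable _)

/-- number of common neighbours -/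
noncomputable def codeg (I : Fin 21 → Fin 21 → Prop) (p q : Fin 21) : ℕ :=
  ∑ r, (adj I p r && adj I q r).toNat

noncomputable def wgt (I : Fin 21 → Fin 21 → Prop) (p : Fin 21) : ℕ :=
  ∑ q, (adj I p q).toNat * codeg I p q

/-- the invariant -/
noncomputable def inva (I : Fin 21 → Fin 21 → Prop) : ℕ × ℕ :=
  (∑ p, wgt I p ^ 2, ∑ p, ∑ q, codeg I p q ^ 2)

variable {I J : Fin 21 → Fin 21 → Prop} {σ τ : Equiv.Perm (Fin 21)}

theorem adj_iso (h : ∀ p l, I p l ↔ J (σ p) (τ l)) (p q : Fin 21) :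
    adj I p q = adj J (σ p) (σ q) := by
  rw [Bool.eq_iff_iff, adj_iff, adj_iff]
  constructor
  · rintro ⟨l, h1, h2⟩
    exact ⟨τ l, (h p l).1 h1, (h q l).1 h2⟩
  · rintro ⟨l, h1, h2⟩
    refine ⟨τ.symm l, (h p _).2 ?_, (h q _).2 ?_⟩ <;> simpa

theorem codeg_iso (h : ∀ p l, I p l ↔ J (σ p) (τ l)) (p q : Fin 21) :
    codeg I p q = codeg J (σ p) (σ q) := by
  unfold codeg
  rw [← Equiv.sum_comp σ (fun r => (adj J (σ p) r && adj J (σ q) r).toNat)]
  exact Finset.sum_congr rfl fun r _ => by rw [adj_iso h p r, adj_iso h q r]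

theorem wgt_iso (h : ∀ p l, I p l ↔ J (σ p) (τ l)) (p : Fin 21) :
    wgt I p = wgt J (σ p) := by
  unfold wgt
  rw [← Equiv.sum_comp σ (fun q => (adj J (σ p) q).toNat * codeg J (σ p) q)]
  exact Finset.sum_congr rfl fun r _ => by rw [adj_iso h p r, codeg_iso h p r]

theorem inva_iso (h : Iso I J) : inva I = inva J := by
  obtain ⟨σ, τ, h⟩ := h
  unfold inva
  refine Prod.ext ?_ ?_
  · show ∑ p, wgt I p ^ 2 = ∑ p, wgt J p ^ 2
    rw [← Equiv.sum_comp σ (fun p => wgt J p ^ 2)]
    exact Finset.sum_congr rfl fun r _ => by rw [wgt_iso h r]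
  · show ∑ p, ∑ q, codeg I p q ^ 2 = ∑ p, ∑ q, codeg J p q ^ 2
    rw [← Equiv.sum_comp σ (fun p => ∑ q, codeg J p q ^ 2)]
    refine Finset.sum_congr rfl fun r _ => ?_
    rw [← Equiv.sum_comp σ (fun q => codeg J (σ r) q ^ 2)]
    exact Finset.sum_congr rfl fun q _ => by rw [codeg_iso h r q]

/-! ### Computation -/

def sumN (f : ℕ → ℕ) : ℕ → ℕ
  | 0 => 0
  | n + 1 => sumN f n + f n

theorem sumN_eq (f : ℕ → ℕ) : ∀ n : ℕ, sumN f n = ∑ i : Fin n, f i
  | 0 => by simp [sumN]
  | n + 1 => by rw [sumN, sumN_eq f n, Fin.sum_univ_castSucc]; rfl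

/-- mask of the neighbours -/
def orL (p : ℕ) : List ℕ → ℕ
  | [] => 0
  | m :: l => (if m.testBit p then m else 0) ||| orL p l

theorem testBit_orL (p q : ℕ) : ∀ M : List ℕ,
    (orL p M).testBit q = M.any (fun m => m.testBit p && m.testBit q)
  | [] => by simp [orL]
  | m :: l => by
    rw [orL, Nat.testBit_or, testBit_orL p q l, List.any_cons]
    congr 1
    by_cases h : m.testBit p = true
    · simp [h]
    · simp [h]

theorem adj_inc {M : List ℕ} (hM : M.length = 21) (p q : Fin 21) :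
    adj (inc M) p q = (orL p M).testBit q := by
  rw [testBit_orL, Bool.eq_iff_iff, adj_iff, List.any_eq_true]
  unfold inc incB
  constructor
  · rintro ⟨l, h1, h2⟩
    have hl : (l : ℕ) < M.length := by rw [hM]; exact l.2
    refine ⟨M[(l : ℕ)], List.getElem_mem hl, ?_⟩
    rw [List.getD_eq_getElem _ _ hl] at h1 h2
    simp [h1, h2]
  · rintro ⟨m, hm, h⟩
    obtain ⟨i, hi, rfl⟩ := List.mem_iff_getElem.1 hm
    rw [Bool.and_eq_true] at h
    refine ⟨⟨i, by omega⟩, ?_, ?_⟩
    · show (M.getD i 0).testBit p = true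
      rw [List.getD_eq_getElem _ _ hi]; exact h.1
    · show (M.getD i 0).testBit q = true
      rw [List.getD_eq_getElem _ _ hi]; exact h.2

/-- number of ones among the first `n` bits -/
def pop (x : ℕ) : ℕ → ℕ
  | 0 => 0
  | n + 1 => x % 2 + pop (x / 2) n

theorem pop_eq : ∀ (n x : ℕ), pop x n = ∑ i : Fin n, (x.testBit i).toNat
  | 0, x => by simp [pop]
  | n + 1, x => by
    rw [pop, pop_eq n (x / 2), Fin.sum_univ_succ]
    congr 1
    · simp only [Fin.val_zero, Nat.testBit_zero]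
      rcases Nat.mod_two_eq_zero_or_one x with h | h <;> simp [h]
    · refine Finset.sum_congr rfl fun i _ => ?_
      rw [Fin.val_succ, Nat.testBit_succ]

def codegN (N : List ℕ) (p q : ℕ) : ℕ := pop (N.getD p 0 &&& N.getD q 0) 21

def wgtN (N : List ℕ) (p : ℕ) : ℕ :=
  sumN (fun q => ((N.getD p 0).testBit q).toNat * codegN N p q) 21

def invN (N : List ℕ) : ℕ × ℕ :=
  (sumN (fun p => wgtN N p ^ 2) 21, sumN (fun p => sumN (fun q => codegN N p q ^ 2) 21) 21)

/-- `N` is the list of neighbour masks -/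
def nbCheck (M N : List ℕ) : Bool :=
  M.length == 21 && allB (fun p => N.getD p 0 == orL p M) 21

theorem inva_eq {M N : List ℕ} (h : nbCheck M N = true) : inva (inc M) = invN N := by
  unfold nbCheck at h
  rw [Bool.and_eq_true, beq_iff_eq] at h
  have hN : ∀ p : Fin 21, N.getD p 0 = orL p M := by
    intro p
    have := allB_iff.1 h.2 p p.2
    rwa [beq_iff_eq] at this
  have h1 : ∀ p q : Fin 21, adj (inc M) p q = (N.getD p 0).testBit q := by
    intro p q; rw [hN p, adj_inc h.1]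
  have h2 : ∀ p q : Fin 21, codeg (inc M) p q = codegN N p q := by
    intro p q
    unfold codeg codegN
    rw [pop_eq]
    refine Finset.sum_congr rfl fun r _ => ?_
    rw [h1, h1, Nat.testBit_and]
  have h3 : ∀ p : Fin 21, wgt (inc M) p = wgtN N p := by
    intro p
    unfold wgt wgtN
    rw [sumN_eq]
    exact Finset.sum_congr rfl fun r _ => by rw [h1, h2]
  have h4 : ∑ p, wgt (inc M) p ^ 2 = sumN (fun p => wgtN N p ^ 2) 21 := by
    rw [sumN_eq]
    exact Finset.sum_congr rfl fun r _ => by rw [h3]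
  have h5 : ∑ p, ∑ q, codeg (inc M) p q ^ 2 =
      sumN (fun p => sumN (fun q => codegN N p q ^ 2) 21) 21 := by
    rw [sumN_eq]
    refine Finset.sum_congr rfl fun p _ => ?_
    rw [sumN_eq]
    exact Finset.sum_congr rfl fun q _ => by rw [h2]
  unfold inva invN
  rw [h4, h5]

end H75C
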