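import Pool.Agent.H75.Conf21.CycDefs
import Pool.Agent.H75.Conf21.Inv

/-!
A criterion for having no polycyclic realisation.
-/

namespace H75C

open scoped ComplexConjugate

/-- If all orbits of an injective self-map of a finite set have `m` elements, `m` divides its
size. -/
theorem dvd_card_of_orb {α : Type*} [DecidableEq α] {f : α → α} (hf : Function.Injective f)
    (S : Finset α) (hS : ∀ x ∈ S, f x ∈ S) {m : ℕ}
    (h : ∀ x ∈ S, (orb f x).ncard = m) : m ∣ S.card := by
  classical
  have hit : ∀ x ∈ S, ∀ k : ℕ, f^[k] x ∈ S := by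
    intro x hx k
    induction k with
    | zero => exact hx
    | succ k ih => rw [Function.iterate_succ_apply']; exact hS _ ih
  -- periodicity
  have hper : ∀ x ∈ S, ∃ n, 0 < n ∧ f^[n] x = x := by
    intro x hx
    have : ∃ a b : ℕ, a < b ∧ f^[a] x = f^[b] x := by
      have hinf : ¬ Function.Injective (fun k : ℕ => (⟨f^[k] x, hit x hx k⟩ : S)) :=
        not_injective_infinite_finite _
      unfold Function.Injective at hinf
      push Not at hinf
      obtain ⟨a, b, hab, hne⟩ := hinf
      have hab' : f^[a] x = f^[b] x := congrArg Subtype.val hab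
      rcases lt_or_gt_of_ne hne with h1 | h1
      · exact ⟨a, b, h1, hab'⟩
      · exact ⟨b, a, h1, hab'.symm⟩
    obtain ⟨a, b, hab, he⟩ := this
    refine ⟨b - a, by omega, ?_⟩
    have h1 : f^[a] (f^[b - a] x) = f^[a] x := by
      rw [← Function.iterate_add_apply, Nat.add_sub_cancel' hab.le, he]
    exact hf.iterate a h1
  -- orbits are classes
  have hmem : ∀ x ∈ S, ∀ y, y ∈ orb f x → orb f y = orb f x := by
    intro x hx y hy
    obtain ⟨k, rfl⟩ := hy
    obtain ⟨n, hn, hnx⟩ := hper x hx
    have hmul : ∀ j : ℕ, f^[n * j] x = x := by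
      intro j
      rw [Function.iterate_mul]
      induction j with
      | zero => rfl
      | succ j ih => rw [Function.iterate_succ_apply', ih, hnx]
    ext z
    constructor
    · rintro ⟨j, rfl⟩
      exact ⟨j + k, by rw [Function.iterate_add_apply]⟩
    · rintro ⟨j, rfl⟩
      refine ⟨j + (n * k - k), ?_⟩
      rw [← Function.iterate_add_apply]
      have hk : k ≤ n * k := Nat.le_mul_of_pos_left k hn
      have : j + (n * k - k) + k = j + n * k := by omega
      rw [this, Function.iterate_add_apply, hmul]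
  have hself : ∀ x, x ∈ orb f x := fun x => ⟨0, rfl⟩
  have hfin : ∀ x ∈ S, orb f x ⊆ (S : Set α) := by
    intro x hx y hy
    obtain ⟨k, rfl⟩ := hy
    exact hit x hx k
  rw [Finset.card_eq_sum_card_image (fun x => orb f x) S]
  refine Finset.dvd_sum fun O hO => ?_
  obtain ⟨x, hx, rfl⟩ := Finset.mem_image.1 hO
  have h1 : ({a ∈ S | orb f a = orb f x} : Finset α).card = m := by
    rw [← h x hx, ← Set.ncard_coe_finset]
    congr 1
    ext y
    rw [Finset.mem_coe, Finset.mem_filter]
    constructor
    · rintro ⟨_, hy⟩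
      rw [← hy]; exact hself y
    · intro hy
      exact ⟨hfin x hx hy, hmem x hx y hy⟩
  exact ⟨1, by rw [mul_one]; exact h1⟩

theorem rot_injective (m : ℕ) (c : ℂ) : Function.Injective (rot m c) := by
  intro x y h
  unfold rot at h
  have h1 := add_left_cancel h
  have h2 := mul_left_cancel₀ (Complex.exp_ne_zero _) h1
  exact sub_left_injective h2

/-- If the sizes of the classes of the invariant `wgt` have no common divisor `m ≥ 2`, there is no
polycyclic realisation. -/
theorem not_polycyclic {I : Fin 21 → Fin 21 → Prop}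
    (hI : ∀ m : ℕ, 2 ≤ m → ∃ v, ¬ m ∣ (Finset.univ.filter (fun p => wgt I p = v)).card) :
    ¬ Polycyclic I := by
  rintro ⟨P, L, hP, hL, _, hinc, m, hm, c, hPr, hLr, hPo, _⟩
  obtain ⟨v, hv⟩ := hI m hm
  have hs : ∀ p, ∃ q, P q = rot m c (P p) := by
    intro p
    have : rot m c (P p) ∈ Set.range P := by
      rw [← hPr]; exact ⟨P p, ⟨p, rfl⟩, rfl⟩
    exact this
  have ht : ∀ l, ∃ k, L k = rot m c '' (L l) := by
    intro l
    have : rot m c '' (L l) ∈ Set.range L := by
      rw [← hLr]; exact ⟨L l, ⟨l, rfl⟩, rfl⟩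
    exact this
  choose σ hσ using hs
  choose τ hτ using ht
  have hσi : Function.Injective σ := by
    intro a b hab
    have h1 : rot m c (P a) = rot m c (P b) := by rw [← hσ, ← hσ, hab]
    exact hP (rot_injective m c h1)
  have hτi : Function.Injective τ := by
    intro a b hab
    have h1 : rot m c '' (L a) = rot m c '' (L b) := by rw [← hτ, ← hτ, hab]
    exact hL ((rot_injective m c).image_injective h1)
  set s : Equiv.Perm (Fin 21) := Equiv.ofBijective σ (Finite.injective_iff_bijective.1 hσi)
  set t : Equiv.Perm (Fin 21) := Equiv.ofBijective τ (Finite.injective_iff_bijective.1 hτi)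
  have hst : ∀ p l, I p l ↔ I (s p) (t l) := by
    intro p l
    show I p l ↔ I (σ p) (τ l)
    rw [← hinc, ← hinc, hσ, hτ]
    exact ((rot_injective m c).mem_set_image).symm
  have hw : ∀ p, wgt I (σ p) = wgt I p := fun p => (wgt_iso hst p).symm
  apply hv
  apply dvd_card_of_orb hσi
  · intro p hp
    rw [Finset.mem_filter] at hp ⊢
    exact ⟨Finset.mem_univ _, by rw [hw, hp.2]⟩
  · intro p _
    rw [← hPo p]
    have hk : ∀ k : ℕ, P (σ^[k] p) = (rot m c)^[k] (P p) := by
      intro k
      induction k with
      | zero => rfl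
      | succ k ih => rw [Function.iterate_succ_apply', Function.iterate_succ_apply', hσ, ih]
    have himg : orb (rot m c) (P p) = P '' orb σ p := by
      ext z
      constructor
      · rintro ⟨k, rfl⟩
        exact ⟨σ^[k] p, ⟨k, rfl⟩, hk k⟩
      · rintro ⟨q, ⟨k, rfl⟩, rfl⟩
        exact ⟨k, hk k⟩
    rw [himg, Set.ncard_image_of_injective _ hP]

/-- number of `p < 21` with computed weight `v` -/
def clsN (N : List ℕ) (v : ℕ) : ℕ := cnt (fun p => wgtN N p == v) 21

theorem wgt_eq {M N : List ℕ} (h : nbCheck M N = true) (p : Fin 21) :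
    wgt (inc M) p = wgtN N p := by
  unfold nbCheck at h
  rw [Bool.and_eq_true, beq_iff_eq] at h
  have hN : ∀ p : Fin 21, N.getD p 0 = orL p M := by
    intro p
    have := allB_iff.1 h.2 p p.2
    rwa [beq_iff_eq] at this
  have h1 : ∀ p q : Fin 21, adj (inc M) p q = (N.getD p 0).testBit q := by
    intro p q; rw [hN p, adj_inc h.1]
  have h2 : ∀ p q : Fin 21, codeg (inc M) p q = codegN N p q := by
    intro p q
    unfold codeg codegN
    rw [pop_eq]
    refine Finset.sum_congr rfl fun r _ => ?_
    rw [h1, h1, Nat.testBit_and]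
  unfold wgt wgtN
  rw [sumN_eq]
  exact Finset.sum_congr rfl fun r _ => by rw [h1, h2]

theorem not_polycyclic_of_cls {M N : List ℕ} (h : nbCheck M N = true) (v w : ℕ)
    (hv : Nat.gcd (clsN N v) (clsN N w) = 1) : ¬ Polycyclic (inc M) := by
  apply not_polycyclic
  intro m hm
  by_contra hcon
  push Not at hcon
  have hc : ∀ u, (Finset.univ.filter (fun p => wgt (inc M) p = u)).card = clsN N u := by
    intro u
    have e := cnt_eq (fun p => wgtN N p == u) 21
    unfold clsN
    rw [e]
    refine congrArg Finset.card (Finset.filter_congr fun p _ => ?_)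
    rw [wgt_eq h p]
    exact beq_iff_eq.symm
  have h1 := hcon v
  have h2 := hcon w
  rw [hc] at h1 h2
  have h3 := Nat.dvd_gcd h1 h2
  rw [hv] at h3
  have := Nat.le_of_dvd one_pos h3
  omega

end H75C
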