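import Mathlib

/-!
Computation with integer polynomials (lists of coefficients, constant term first) at a real
algebraic integer `α`, given by a monic integer polynomial and a dyadic approximation.
-/

namespace H75C

/-- value at `x` -/
noncomputable def ev (x : ℝ) : List ℤ → ℝ
  | [] => 0
  | c :: l => c + x * ev x l

def padd : List ℤ → List ℤ → List ℤ
  | [], b => b
  | a, [] => a
  | x :: a, y :: b => (x + y) :: padd a b

def psmul (c : ℤ) : List ℤ → List ℤ
  | [] => []
  | x :: a => (c * x) :: psmul c a

/-- reduction of a list of length at most `d + 1` modulo the monic `f` (given by its first `d`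
coefficients), where `d = f.length` -/
def pred (f : List ℤ) (l : List ℤ) : List ℤ :=
  match l.drop f.length with
  | [] => l
  | c :: _ => padd (l.take f.length) (psmul (-c) f)

/-- product modulo the monic polynomial `x ^ d + f` -/
def pmul (f : List ℤ) : List ℤ → List ℤ → List ℤ
  | [], _ => []
  | x :: a, b => padd (psmul x b) (pred f (0 :: pmul f a b))

def pzero : List ℤ → Bool
  | [] => true
  | x :: a => x == 0 && pzero a

theorem ev_padd (x : ℝ) : ∀ a b : List ℤ, ev x (padd a b) = ev x a + ev x b
  | [], b => by simp [padd, ev]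
  | y :: a, [] => by simp [padd, ev]
  | y :: a, z :: b => by
    simp only [padd, ev, ev_padd x a b]
    push_cast; ring

theorem ev_psmul (x : ℝ) (c : ℤ) : ∀ a : List ℤ, ev x (psmul c a) = c * ev x a
  | [] => by simp [psmul, ev]
  | y :: a => by
    simp only [psmul, ev, ev_psmul x c a]
    push_cast; ring

theorem ev_pzero (x : ℝ) : ∀ a : List ℤ, pzero a = true → ev x a = 0
  | [], _ => rfl
  | y :: a, h => by
    rw [pzero, Bool.and_eq_true, beq_iff_eq] at h
    simp [ev, h.1, ev_pzero x a h.2]

theorem ev_take_drop (x : ℝ) : ∀ (n : ℕ) (l : List ℤ),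
    ev x l = ev x (l.take n) + x ^ n * ev x (l.drop n)
  | 0, l => by simp [ev]
  | n + 1, [] => by simp [ev]
  | n + 1, c :: l => by
    simp only [List.take_succ_cons, List.drop_succ_cons, ev]
    rw [ev_take_drop x n l, pow_succ]; ring

/-- `x` is a root of the monic polynomial `X ^ d + f` -/
def Root (f : List ℤ) (x : ℝ) : Prop := x ^ f.length + ev x f = 0

theorem ev_pred {f : List ℤ} {x : ℝ} (hx : Root f x) {l : List ℤ} (hl : l.length ≤ f.length + 1) :
    ev x (pred f l) = ev x l := by
  unfold pred
  rw [ev_take_drop x f.length l]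
  have h1 : (l.drop f.length).length ≤ 1 := by
    rw [List.length_drop]; omega
  split
  · next h =>
    rw [← ev_take_drop]
  · next c t h =>
    rw [h] at h1 ⊢
    have h2 : t = [] := by
      rw [List.length_cons] at h1
      exact List.eq_nil_of_length_eq_zero (by omega)
    subst h2
    rw [ev_padd, ev_psmul]
    simp only [ev, mul_zero, add_zero]
    unfold Root at hx
    have : x ^ f.length = - ev x f := by linarith
    rw [this]; push_cast; ring

theorem length_padd : ∀ a b : List ℤ, (padd a b).length = max a.length b.length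
  | [], b => by simp [padd]
  | y :: a, [] => by simp [padd]
  | y :: a, z :: b => by simp [padd, length_padd a b]

theorem length_psmul (c : ℤ) : ∀ a : List ℤ, (psmul c a).length = a.length
  | [] => rfl
  | y :: a => by simp [psmul, length_psmul c a]

theorem length_pred {f l : List ℤ} (hl : l.length ≤ f.length + 1) :
    (pred f l).length ≤ f.length := by
  unfold pred
  split
  · next h =>
    have := congrArg List.length h
    rw [List.length_drop, List.length_nil] at this
    omega
  · rw [length_padd, length_psmul, List.length_take]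
    omega

theorem length_pmul {f : List ℤ} : ∀ (a : List ℤ) {b : List ℤ}, b.length ≤ f.length →
    (pmul f a b).length ≤ f.length
  | [], b, _ => by simp [pmul]
  | x :: a, b, h => by
    rw [pmul, length_padd, length_psmul]
    have h1 := length_pmul (f := f) a h
    have h2 : (0 :: pmul f a b).length ≤ f.length + 1 := by
      rw [List.length_cons]; omega
    have := length_pred (f := f) h2
    omega

theorem ev_pmul {f : List ℤ} {x : ℝ} (hx : Root f x) : ∀ (a : List ℤ) {b : List ℤ},
    b.length ≤ f.length → ev x (pmul f a b) = ev x a * ev x b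
  | [], b, _ => by simp [pmul, ev]
  | y :: a, b, h => by
    have h1 := length_pmul (f := f) a h
    have h2 : (0 :: pmul f a b).length ≤ f.length + 1 := by
      rw [List.length_cons]; omega
    rw [pmul, ev_padd, ev_psmul, ev_pred hx h2]
    simp only [ev]
    rw [ev_pmul hx a h]
    push_cast; ring

/-! ### Numerical evaluation -/

/-- numerator `N` and power `D ^ n` with `ev (A / D) l = N / D ^ n`, `n = l.length` -/
def num (A D : ℤ) : List ℤ → ℤ × ℤ
  | [] => (0, 1)
  | c :: l => let r := num A D l; (c * (D * r.2) + A * r.1, D * r.2)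

theorem num_snd (A D : ℤ) : ∀ l : List ℤ, (num A D l).2 = D ^ l.length
  | [] => by simp [num]
  | c :: l => by simp [num, num_snd A D l, pow_succ, mul_comm]

theorem num_fst (A D : ℤ) (hD : (D : ℝ) ≠ 0) : ∀ l : List ℤ,
    ev ((A : ℝ) / D) l * ((num A D l).2 : ℝ) = ((num A D l).1 : ℝ)
  | [] => by simp [num, ev]
  | c :: l => by
    have h := num_fst A D hD l
    simp only [num, ev]
    push_cast
    rw [← h]
    field_simp

/-- bounds: `(E, B)` with `|ev x l| ≤ E` and `|ev x l - ev y l| ≤ B * |x - y|` for
`|x|, |y| ≤ M` -/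
def bnd (M : ℤ) : List ℤ → ℤ × ℤ
  | [] => (0, 0)
  | c :: l => let r := bnd M l; (|c| + M * r.1, r.1 + M * r.2)

theorem bnd_spec {M : ℤ} {x y : ℝ} (hx : |x| ≤ M) (hy : |y| ≤ M) : ∀ l : List ℤ,
    |ev x l| ≤ (bnd M l).1 ∧ |ev x l - ev y l| ≤ (bnd M l).2 * |x - y|
  | [] => by simp [bnd, ev]
  | c :: l => by
    obtain ⟨h1, h2⟩ := bnd_spec hx hy l
    simp only [bnd, ev]
    have hM : (0 : ℝ) ≤ M := (abs_nonneg x).trans hx
    constructor
    · calc |(c : ℝ) + x * ev x l| ≤ |(c : ℝ)| + |x * ev x l| := abs_add_le _ _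
        _ ≤ |(c : ℝ)| + M * (bnd M l).1 := by
            rw [abs_mul]
            have := mul_le_mul hx h1 (abs_nonneg _) hM
            linarith
        _ = _ := by push_cast; ring
    · have e : (c : ℝ) + x * ev x l - (c + y * ev y l) =
          (x - y) * ev x l + y * (ev x l - ev y l) := by ring
      rw [e]
      calc |(x - y) * ev x l + y * (ev x l - ev y l)| ≤
            |(x - y) * ev x l| + |y * (ev x l - ev y l)| := abs_add_le _ _
        _ ≤ |x - y| * (bnd M l).1 + M * ((bnd M l).2 * |x - y|) := by
            rw [abs_mul, abs_mul]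
            have h3 := mul_le_mul_of_nonneg_left h1 (abs_nonneg (x - y))
            have h4 := mul_le_mul hy h2 (abs_nonneg _) hM
            linarith
        _ = _ := by push_cast; ring

/-- certificate that `ev α l ≠ 0` when `|α - A / D| ≤ 1 / D` -/
def pne (A D M : ℤ) (l : List ℤ) : Bool :=
  let r := num A D l
  decide ((bnd M l).2 * r.2 < |r.1| * D)

theorem ev_ne_zero {A D M : ℤ} (hD : 0 < D) {α : ℝ} (h : |α - (A : ℝ) / D| ≤ 1 / D)
    (hα : |α| ≤ M) (hA : |(A : ℝ) / D| ≤ M) {l : List ℤ} (hl : pne A D M l = true) :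
    ev α l ≠ 0 := by
  intro h0
  have hD' : (0 : ℝ) < D := by exact_mod_cast hD
  have h1 := (bnd_spec hα hA l).2
  rw [h0, zero_sub, abs_neg] at h1
  have h2 := num_fst A D hD'.ne' l
  have h3 := num_snd A D l
  have hpos : (0 : ℝ) < ((num A D l).2 : ℝ) := by
    rw [h3]; push_cast; positivity
  have h4 : |((num A D l).1 : ℝ)| = |ev ((A : ℝ) / D) l| * ((num A D l).2 : ℝ) := by
    rw [← h2, abs_mul, abs_of_pos hpos]
  unfold pne at hl
  have h5 : ((bnd M l).2 * (num A D l).2 : ℝ) < |((num A D l).1 : ℝ)| * D := by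
    have := of_decide_eq_true hl
    exact_mod_cast this
  have hB : (0 : ℝ) ≤ ((bnd M l).2 : ℝ) := by
    have : ∀ l : List ℤ, 0 ≤ (bnd M l).1 ∧ 0 ≤ (bnd M l).2 := by
      have hM : 0 ≤ M := by
        have : (0 : ℝ) ≤ M := (abs_nonneg α).trans hα
        exact_mod_cast this
      intro l
      induction l with
      | nil => simp [bnd]
      | cons c l ih =>
        simp only [bnd]
        exact ⟨add_nonneg (abs_nonneg _) (mul_nonneg hM ih.1),
          add_nonneg ih.1 (mul_nonneg hM ih.2)⟩
    exact_mod_cast (this l).2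
  have h6 : |ev ((A : ℝ) / D) l| ≤ ((bnd M l).2 : ℝ) * (1 / D) :=
    h1.trans (mul_le_mul_of_nonneg_left h hB)
  rw [h4] at h5
  have h7 : |ev ((A : ℝ) / D) l| * D ≤ (bnd M l).2 := by
    calc |ev ((A : ℝ) / D) l| * D ≤ ((bnd M l).2 : ℝ) * (1 / D) * D :=
          mul_le_mul_of_nonneg_right h6 hD'.le
      _ = _ := by field_simp
  nlinarith

/-- the full monic polynomial as a list -/
def full (f : List ℤ) : List ℤ := f ++ [1]

theorem ev_append_one (x : ℝ) : ∀ f : List ℤ, ev x (f ++ [1]) = ev x f + x ^ f.length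
  | [] => by simp [ev]
  | c :: f => by
    simp only [List.cons_append, ev, ev_append_one x f, List.length_cons, pow_succ]
    ring

theorem continuous_ev : ∀ l : List ℤ, Continuous (fun x : ℝ => ev x l)
  | [] => continuous_const
  | c :: l => by
    simp only [ev]
    exact continuous_const.add (continuous_id.mul (continuous_ev l))

/-- certificate for a root in `[A / D, (A + 1) / D]` -/
def rootCert (f : List ℤ) (A D : ℤ) : Bool :=
  decide ((num A D (full f)).1 * (num (A + 1) D (full f)).1 ≤ 0)

theorem exists_root {f : List ℤ} {A D : ℤ} (hD : 0 < D) (h : rootCert f A D = true) :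
    ∃ α : ℝ, Root f α ∧ |α - (A : ℝ) / D| ≤ 1 / D := by
  have hD' : (0 : ℝ) < D := by exact_mod_cast hD
  set g : ℝ → ℝ := fun x => ev x (full f) with hg
  have hc : Continuous g := continuous_ev _
  have h1 := num_fst A D hD'.ne' (full f)
  have h2 := num_fst (A + 1) D hD'.ne' (full f)
  have hpos : ∀ a : ℤ, (0 : ℝ) < ((num a D (full f)).2 : ℝ) := by
    intro a
    rw [num_snd]; push_cast; positivity
  have h3 : ((num A D (full f)).1 : ℝ) * ((num (A + 1) D (full f)).1 : ℝ) ≤ 0 := by
    have := of_decide_eq_true h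
    exact_mod_cast this
  have h4 : g ((A : ℝ) / D) * g (((A + 1 : ℤ) : ℝ) / D) ≤ 0 := by
    rw [← h1, ← h2] at h3
    have e : ev ((A : ℝ) / D) (full f) * ((num A D (full f)).2 : ℝ) *
        (ev (((A + 1 : ℤ) : ℝ) / D) (full f) * ((num (A + 1) D (full f)).2 : ℝ)) =
        (g ((A : ℝ) / D) * g (((A + 1 : ℤ) : ℝ) / D)) *
          (((num A D (full f)).2 : ℝ) * ((num (A + 1) D (full f)).2 : ℝ)) := by
      simp only [hg]; ring
    rw [e] at h3
    by_contra hcon
    push Not at hcon
    have := mul_pos hcon (mul_pos (hpos A) (hpos (A + 1)))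
    linarith
  have hle : (A : ℝ) / D ≤ ((A + 1 : ℤ) : ℝ) / D := by
    apply div_le_div_of_nonneg_right _ hD'.le
    push_cast; linarith
  have hmem : (0 : ℝ) ∈ g '' Set.Icc ((A : ℝ) / D) (((A + 1 : ℤ) : ℝ) / D) := by
    rcases le_total (g ((A : ℝ) / D)) 0 with h5 | h5
    · rcases h5.eq_or_lt with h6 | h6
      · exact ⟨_, ⟨le_rfl, hle⟩, h6⟩
      · have h7 : 0 ≤ g (((A + 1 : ℤ) : ℝ) / D) := by
          by_contra hcon
          push Not at hcon
          have := mul_pos_of_neg_of_neg h6 hcon
          linarith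
        exact intermediate_value_Icc hle hc.continuousOn ⟨h5, h7⟩
    · rcases h5.eq_or_lt with h6 | h6
      · exact ⟨_, ⟨le_rfl, hle⟩, h6.symm⟩
      · have h7 : g (((A + 1 : ℤ) : ℝ) / D) ≤ 0 := by
          by_contra hcon
          push Not at hcon
          have := mul_pos h6 hcon
          linarith
        exact intermediate_value_Icc' hle hc.continuousOn ⟨h7, h5⟩
  obtain ⟨α, hα, h0⟩ := hmem
  refine ⟨α, ?_, ?_⟩
  · unfold Root
    have : ev α (f ++ [1]) = 0 := h0
    rw [ev_append_one] at this
    linarith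
  · rw [abs_le]
    have e : ((A + 1 : ℤ) : ℝ) / D = (A : ℝ) / D + 1 / D := by
      push_cast; ring
    have h8 : (0 : ℝ) < 1 / D := by positivity
    constructor
    · linarith [hα.1]
    · linarith [hα.2]

end H75C
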