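import Pool.Agent.H75.Conf21.Data.D0
import Pool.Agent.H75.Conf21.Data.D1
import Pool.Agent.H75.Conf21.Data.D2
import Pool.Agent.H75.Conf21.Data.D3
import Pool.Agent.H75.Conf21.Data.D4

/-!
The tables of configurations.
-/

namespace H75C

/-- all configurations of the table have the property `Q` and the invariants of the table -/
def Tabd (Q : (Fin 21 → Fin 21 → Prop) → Prop) (T : List (List ℕ × (ℕ × ℕ))) : Prop :=
  ∀ x ∈ T, Q (inc x.1) ∧ inva (inc x.1) = x.2

theorem tabd_nil (Q : (Fin 21 → Fin 21 → Prop) → Prop) : Tabd Q [] := by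
  intro x hx; simp at hx

theorem tabd_cons {Q : (Fin 21 → Fin 21 → Prop) → Prop} {M : List ℕ} {v : ℕ × ℕ}
    {T : List (List ℕ × (ℕ × ℕ))} (h1 : Q (inc M)) (h2 : inva (inc M) = v) (h : Tabd Q T) :
    Tabd Q ((M, v) :: T) := by
  intro x hx
  rcases List.mem_cons.1 hx with rfl | hx
  · exact ⟨h1, h2⟩
  · exact h x hx

theorem family {Q : (Fin 21 → Fin 21 → Prop) → Prop} (T : List (List ℕ × (ℕ × ℕ)))
    (h : Tabd Q T) (hn : (T.map Prod.snd).Nodup) :
    ∃ c : Fin T.length → Fin 21 → Fin 21 → Prop, (∀ i, Q (c i)) ∧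
      ∀ i j, i ≠ j → ¬ Iso (c i) (c j) := by
  refine ⟨fun i => inc (T.get i).1, fun i => (h _ (List.get_mem T i)).1, ?_⟩
  intro i j hij hiso
  have h1 := (h _ (List.get_mem T i)).2
  have h2 := (h _ (List.get_mem T j)).2
  have h3 := inva_iso hiso
  rw [h1, h2] at h3
  apply hij
  have h4 : (T.map Prod.snd).get (i.cast (List.length_map _).symm) =
      (T.map Prod.snd).get (j.cast (List.length_map _).symm) := by
    simpa using h3
  have h5 := (List.nodup_iff_injective_get.1 hn) h4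
  exact Fin.ext (by simpa using congrArg Fin.val h5)

def tabAll : List (List ℕ × (ℕ × ℕ)) := [(c053cbb.M, (254829, 29385)),
  (c0a7e1f.M, (254805, 29385)),
  (c0bb757.M, (268581, 29817)),
  (c0cd47a.M, (231525, 29337)),
  (c11092e.M, (286205, 29873)),
  (c182216.M, (266877, 29649)),
  (c22e815.M, (256149, 29481)),
  (c2a312b.M, (268325, 29817)),
  (c366e4a.M, (254781, 29481)),
  (c377424.M, (290493, 30393)),
  (c3b29fe.M, (256125, 29409)),
  (c3bc73c.M, (273813, 29721)),
  (c463e10.M, (257445, 29529)),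
  (c57b1de.M, (256101, 29409)),
  (c5b198b.M, (249573, 29529)),
  (c7f5574.M, (257469, 29625)),
  (c84e3af.M, (262773, 29625)),
  (c85f7f3.M, (273693, 29817)),
  (c874a11.M, (249565, 29441)),
  (cb78dc2.M, (246933, 29241)),
  (cc2dd7f.M, (271253, 29937)),
  (cc2f0f3.M, (282189, 30009)),
  (cc82d6a.M, (256101, 29481)),
  (ce27fb5.M, (265749, 29721)),
  (ce6074a.M, (257461, 29441)),
  (ce79d1a.M, (250893, 29361)),
  (cea6495.M, (265485, 29721)),
  (cefe59a.M, (265557, 29625)),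
  (cf09045.M, (275037, 29889))]

def tabCyc : List (List ℕ × (ℕ × ℕ)) := [(c053cbb.M, (254829, 29385)),
  (c0a7e1f.M, (254805, 29385)),
  (c182216.M, (266877, 29649)),
  (c22e815.M, (256149, 29481)),
  (c366e4a.M, (254781, 29481)),
  (c3b29fe.M, (256125, 29409)),
  (c463e10.M, (257445, 29529)),
  (c57b1de.M, (256101, 29409)),
  (c5b198b.M, (249573, 29529)),
  (c7f5574.M, (257469, 29625)),
  (c84e3af.M, (262773, 29625)),
  (cb78dc2.M, (246933, 29241)),
  (cc82d6a.M, (256101, 29481)),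
  (ce79d1a.M, (250893, 29361)),
  (cea6495.M, (265485, 29721)),
  (cf09045.M, (275037, 29889))]

def tabNot : List (List ℕ × (ℕ × ℕ)) := [(c11092e.M, (286205, 29873)),
  (c2a312b.M, (268325, 29817)),
  (c85f7f3.M, (273693, 29817)),
  (c874a11.M, (249565, 29441)),
  (cc2dd7f.M, (271253, 29937)),
  (ce6074a.M, (257461, 29441)),
  (cefe59a.M, (265557, 29625))]

theorem tabAll_nodup : (tabAll.map Prod.snd).Nodup := by decide +kernel

theorem tabCyc_nodup : (tabCyc.map Prod.snd).Nodup := by decide +kernel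

theorem tabNot_nodup : (tabNot.map Prod.snd).Nodup := by decide +kernel

theorem tabAll_mem : Tabd (fun I => IsConf I ∧ Geometric I) tabAll :=
  tabd_cons (⟨isConf_of_check c053cbb_conf, geometric_of_check c053cbb_conf c053cbb_geom⟩)
    ((inva_eq c053cbb_nb).trans c053cbb_inv) <|
  tabd_cons (⟨isConf_of_check c0a7e1f_conf, geometric_of_check c0a7e1f_conf c0a7e1f_geom⟩)
    ((inva_eq c0a7e1f_nb).trans c0a7e1f_inv) <|
  tabd_cons (⟨isConf_of_check c0bb757_conf, geometric_of_check c0bb757_conf c0bb757_geom⟩)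
    ((inva_eq c0bb757_nb).trans c0bb757_inv) <|
  tabd_cons (⟨isConf_of_check c0cd47a_conf, geometric_of_check c0cd47a_conf c0cd47a_geom⟩)
    ((inva_eq c0cd47a_nb).trans c0cd47a_inv) <|
  tabd_cons (⟨isConf_of_check c11092e_conf, geometric_of_check c11092e_conf c11092e_geom⟩)
    ((inva_eq c11092e_nb).trans c11092e_inv) <|
  tabd_cons (⟨isConf_of_check c182216_conf, geometric_of_check c182216_conf c182216_geom⟩)
    ((inva_eq c182216_nb).trans c182216_inv) <|
  tabd_cons (⟨isConf_of_check c22e815_conf, geometric_of_check c22e815_conf c22e815_geom⟩)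
    ((inva_eq c22e815_nb).trans c22e815_inv) <|
  tabd_cons (⟨isConf_of_check c2a312b_conf, geometric_of_check c2a312b_conf c2a312b_geom⟩)
    ((inva_eq c2a312b_nb).trans c2a312b_inv) <|
  tabd_cons (⟨isConf_of_check c366e4a_conf, geometric_of_check c366e4a_conf c366e4a_geom⟩)
    ((inva_eq c366e4a_nb).trans c366e4a_inv) <|
  tabd_cons (⟨isConf_of_check c377424_conf, geometric_of_check c377424_conf c377424_geom⟩)
    ((inva_eq c377424_nb).trans c377424_inv) <|
  tabd_cons (⟨isConf_of_check c3b29fe_conf, geometric_of_check c3b29fe_conf c3b29fe_geom⟩)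
    ((inva_eq c3b29fe_nb).trans c3b29fe_inv) <|
  tabd_cons (⟨isConf_of_check c3bc73c_conf, geometric_of_check c3bc73c_conf c3bc73c_geom⟩)
    ((inva_eq c3bc73c_nb).trans c3bc73c_inv) <|
  tabd_cons (⟨isConf_of_check c463e10_conf, geometric_of_check c463e10_conf c463e10_geom⟩)
    ((inva_eq c463e10_nb).trans c463e10_inv) <|
  tabd_cons (⟨isConf_of_check c57b1de_conf, geometric_of_check c57b1de_conf c57b1de_geom⟩)
    ((inva_eq c57b1de_nb).trans c57b1de_inv) <|
  tabd_cons (⟨isConf_of_check c5b198b_conf, geometric_of_check c5b198b_conf c5b198b_geom⟩)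
    ((inva_eq c5b198b_nb).trans c5b198b_inv) <|
  tabd_cons (⟨isConf_of_check c7f5574_conf, geometric_of_check c7f5574_conf c7f5574_geom⟩)
    ((inva_eq c7f5574_nb).trans c7f5574_inv) <|
  tabd_cons (⟨isConf_of_check c84e3af_conf, geometric_of_check c84e3af_conf c84e3af_geom⟩)
    ((inva_eq c84e3af_nb).trans c84e3af_inv) <|
  tabd_cons (⟨isConf_of_check c85f7f3_conf, geometric_of_check c85f7f3_conf c85f7f3_geom⟩)
    ((inva_eq c85f7f3_nb).trans c85f7f3_inv) <|
  tabd_cons (⟨isConf_of_check c874a11_conf, geometric_of_check c874a11_conf c874a11_geom⟩)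
    ((inva_eq c874a11_nb).trans c874a11_inv) <|
  tabd_cons (⟨isConf_of_check cb78dc2_conf, geometric_of_check cb78dc2_conf cb78dc2_geom⟩)
    ((inva_eq cb78dc2_nb).trans cb78dc2_inv) <|
  tabd_cons (⟨isConf_of_check cc2dd7f_conf, geometric_of_check cc2dd7f_conf cc2dd7f_geom⟩)
    ((inva_eq cc2dd7f_nb).trans cc2dd7f_inv) <|
  tabd_cons (⟨isConf_of_check cc2f0f3_conf, geometric_of_check cc2f0f3_conf cc2f0f3_geom⟩)
    ((inva_eq cc2f0f3_nb).trans cc2f0f3_inv) <|
  tabd_cons (⟨isConf_of_check cc82d6a_conf, geometric_of_check cc82d6a_conf cc82d6a_geom⟩)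
    ((inva_eq cc82d6a_nb).trans cc82d6a_inv) <|
  tabd_cons (⟨isConf_of_check ce27fb5_conf, geometric_of_check ce27fb5_conf ce27fb5_geom⟩)
    ((inva_eq ce27fb5_nb).trans ce27fb5_inv) <|
  tabd_cons (⟨isConf_of_check ce6074a_conf, geometric_of_check ce6074a_conf ce6074a_geom⟩)
    ((inva_eq ce6074a_nb).trans ce6074a_inv) <|
  tabd_cons (⟨isConf_of_check ce79d1a_conf, geometric_of_check ce79d1a_conf ce79d1a_geom⟩)
    ((inva_eq ce79d1a_nb).trans ce79d1a_inv) <|
  tabd_cons (⟨isConf_of_check cea6495_conf, geometric_of_check cea6495_conf cea6495_geom⟩)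
    ((inva_eq cea6495_nb).trans cea6495_inv) <|
  tabd_cons (⟨isConf_of_check cefe59a_conf, geometric_of_check cefe59a_conf cefe59a_geom⟩)
    ((inva_eq cefe59a_nb).trans cefe59a_inv) <|
  tabd_cons (⟨isConf_of_check cf09045_conf, geometric_of_check cf09045_conf cf09045_geom⟩)
    ((inva_eq cf09045_nb).trans cf09045_inv) <|
  tabd_nil _

theorem tabCyc_mem : Tabd (fun I => IsConf I ∧ Polycyclic I) tabCyc :=
  tabd_cons (⟨isConf_of_check c053cbb_conf, polycyclic_of_check c053cbb_conf c053cbb_geom c053cbb_cyc⟩)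
    ((inva_eq c053cbb_nb).trans c053cbb_inv) <|
  tabd_cons (⟨isConf_of_check c0a7e1f_conf, polycyclic_of_check c0a7e1f_conf c0a7e1f_geom c0a7e1f_cyc⟩)
    ((inva_eq c0a7e1f_nb).trans c0a7e1f_inv) <|
  tabd_cons (⟨isConf_of_check c182216_conf, polycyclic_of_check c182216_conf c182216_geom c182216_cyc⟩)
    ((inva_eq c182216_nb).trans c182216_inv) <|
  tabd_cons (⟨isConf_of_check c22e815_conf, polycyclic_of_check c22e815_conf c22e815_geom c22e815_cyc⟩)
    ((inva_eq c22e815_nb).trans c22e815_inv) <|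
  tabd_cons (⟨isConf_of_check c366e4a_conf, polycyclic_of_check c366e4a_conf c366e4a_geom c366e4a_cyc⟩)
    ((inva_eq c366e4a_nb).trans c366e4a_inv) <|
  tabd_cons (⟨isConf_of_check c3b29fe_conf, polycyclic_of_check c3b29fe_conf c3b29fe_geom c3b29fe_cyc⟩)
    ((inva_eq c3b29fe_nb).trans c3b29fe_inv) <|
  tabd_cons (⟨isConf_of_check c463e10_conf, polycyclic_of_check c463e10_conf c463e10_geom c463e10_cyc⟩)
    ((inva_eq c463e10_nb).trans c463e10_inv) <|
  tabd_cons (⟨isConf_of_check c57b1de_conf, polycyclic_of_check c57b1de_conf c57b1de_geom c57b1de_cyc⟩)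
    ((inva_eq c57b1de_nb).trans c57b1de_inv) <|
  tabd_cons (⟨isConf_of_check c5b198b_conf, polycyclic_of_check c5b198b_conf c5b198b_geom c5b198b_cyc⟩)
    ((inva_eq c5b198b_nb).trans c5b198b_inv) <|
  tabd_cons (⟨isConf_of_check c7f5574_conf, polycyclic_of_check c7f5574_conf c7f5574_geom c7f5574_cyc⟩)
    ((inva_eq c7f5574_nb).trans c7f5574_inv) <|
  tabd_cons (⟨isConf_of_check c84e3af_conf, polycyclic_of_check c84e3af_conf c84e3af_geom c84e3af_cyc⟩)
    ((inva_eq c84e3af_nb).trans c84e3af_inv) <|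
  tabd_cons (⟨isConf_of_check cb78dc2_conf, polycyclic_of_check cb78dc2_conf cb78dc2_geom cb78dc2_cyc⟩)
    ((inva_eq cb78dc2_nb).trans cb78dc2_inv) <|
  tabd_cons (⟨isConf_of_check cc82d6a_conf, polycyclic_of_check cc82d6a_conf cc82d6a_geom cc82d6a_cyc⟩)
    ((inva_eq cc82d6a_nb).trans cc82d6a_inv) <|
  tabd_cons (⟨isConf_of_check ce79d1a_conf, polycyclic_of_check ce79d1a_conf ce79d1a_geom ce79d1a_cyc⟩)
    ((inva_eq ce79d1a_nb).trans ce79d1a_inv) <|
  tabd_cons (⟨isConf_of_check cea6495_conf, polycyclic_of_check cea6495_conf cea6495_geom cea6495_cyc⟩)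
    ((inva_eq cea6495_nb).trans cea6495_inv) <|
  tabd_cons (⟨isConf_of_check cf09045_conf, polycyclic_of_check cf09045_conf cf09045_geom cf09045_cyc⟩)
    ((inva_eq cf09045_nb).trans cf09045_inv) <|
  tabd_nil _

theorem tabNot_mem : Tabd (fun I => IsConf I ∧ Geometric I ∧ ¬ Polycyclic I) tabNot :=
  tabd_cons (⟨isConf_of_check c11092e_conf, geometric_of_check c11092e_conf c11092e_geom,
    not_polycyclic_of_cls c11092e_nb _ _ c11092e_cls⟩)
    ((inva_eq c11092e_nb).trans c11092e_inv) <|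
  tabd_cons (⟨isConf_of_check c2a312b_conf, geometric_of_check c2a312b_conf c2a312b_geom,
    not_polycyclic_of_cls c2a312b_nb _ _ c2a312b_cls⟩)
    ((inva_eq c2a312b_nb).trans c2a312b_inv) <|
  tabd_cons (⟨isConf_of_check c85f7f3_conf, geometric_of_check c85f7f3_conf c85f7f3_geom,
    not_polycyclic_of_cls c85f7f3_nb _ _ c85f7f3_cls⟩)
    ((inva_eq c85f7f3_nb).trans c85f7f3_inv) <|
  tabd_cons (⟨isConf_of_check c874a11_conf, geometric_of_check c874a11_conf c874a11_geom,
    not_polycyclic_of_cls c874a11_nb _ _ c874a11_cls⟩)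
    ((inva_eq c874a11_nb).trans c874a11_inv) <|
  tabd_cons (⟨isConf_of_check cc2dd7f_conf, geometric_of_check cc2dd7f_conf cc2dd7f_geom,
    not_polycyclic_of_cls cc2dd7f_nb _ _ cc2dd7f_cls⟩)
    ((inva_eq cc2dd7f_nb).trans cc2dd7f_inv) <|
  tabd_cons (⟨isConf_of_check ce6074a_conf, geometric_of_check ce6074a_conf ce6074a_geom,
    not_polycyclic_of_cls ce6074a_nb _ _ ce6074a_cls⟩)
    ((inva_eq ce6074a_nb).trans ce6074a_inv) <|
  tabd_cons (⟨isConf_of_check cefe59a_conf, geometric_of_check cefe59a_conf cefe59a_geom,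
    not_polycyclic_of_cls cefe59a_nb _ _ cefe59a_cls⟩)
    ((inva_eq cefe59a_nb).trans cefe59a_inv) <|
  tabd_nil _

end H75C
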